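import Pool.Agent.X181.AC.Count

/-!
# Entropy of abelian closures of binary words (MP_1706f7_co)

Words are functions `ℕ → Bool`, the letter `1` being `true`.  We exhibit a uniformly recurrent,
aperiodic, non-Sturmian binary word whose abelian closure has topological entropy `0`.
-/

namespace Pool.Agent.Results.MP_1706f7_co.ZeroEntropy

/-- `|x_i x_{i+1} ... x_{i+n-1}|_1`, the number of ones in the factor of `x` of length `n` at `i`. -/
def ones (x : ℕ → Bool) (i n : ℕ) : ℕ := ((Finset.range n).filter (fun k => x (i + k) = true)).card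

/-- Uniform recurrence: every factor `x_i ... x_{i+m-1}` occurs with bounded gaps. -/
def UniformlyRecurrent (x : ℕ → Bool) : Prop :=
  ∀ i m : ℕ, ∃ K : ℕ, ∀ j : ℕ, ∃ p : ℕ, j ≤ p ∧ p ≤ j + K ∧ ∀ s < m, x (p + s) = x (i + s)

/-- Aperiodic: not eventually periodic. -/
def Aperiodic (x : ℕ → Bool) : Prop :=
  ¬ ∃ p : ℕ, 0 < p ∧ ∃ M : ℕ, ∀ m ≥ M, x (m + p) = x m

/-- The set of factors of length `m` of `x`. -/
def factors (x : ℕ → Bool) (m : ℕ) : Set (Fin m → Bool) :=
  {w | ∃ i : ℕ, w = fun j : Fin m => x (i + (j : ℕ))}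

/-- Sturmian: aperiodic with exactly `m + 1` factors of every length `m`. -/
def Sturmian (x : ℕ → Bool) : Prop := Aperiodic x ∧ ∀ m : ℕ, (factors x m).ncard = m + 1

/-- The abelian closure `A(x)`: all words `y` such that every factor of `y` is abelian equivalent
(same length, same number of ones) to some factor of `x`. -/
def abelianClosure (x : ℕ → Bool) : Set (ℕ → Bool) :=
  {y | ∀ i m : ℕ, ∃ j : ℕ, ones y i m = ones x j m}

/-- `L_m(X)`: the blocks of length `m` occurring in some element of `X`. -/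
def blocks (X : Set (ℕ → Bool)) (m : ℕ) : Set (Fin m → Bool) :=
  {w | ∃ y ∈ X, ∃ i : ℕ, w = fun j : Fin m => y (i + (j : ℕ))}

/-- There is a uniformly recurrent, aperiodic, non-Sturmian binary word `x` whose abelian closure
has topological entropy `lim (1/m) log |L_m(A(x))| = 0`. -/
theorem result : ∃ x : ℕ → Bool, UniformlyRecurrent x ∧ Aperiodic x ∧ ¬ Sturmian x ∧
    Filter.Tendsto (fun m : ℕ => Real.log ((blocks (abelianClosure x) m).ncard : ℝ) / m)
      Filter.atTop (nhds 0) :=
  ⟨Pool.Agent.X181.AC.x, Pool.Agent.X181.AC.x_unifRec, Pool.Agent.X181.AC.x_aperiodic,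
    Pool.Agent.X181.AC.x_not_sturmian, Pool.Agent.X181.AC.entropy_zero⟩

end Pool.Agent.Results.MP_1706f7_co.ZeroEntropy
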